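import Pool.Agent.R908.KoC

/-!
# The standard conjecture D for abelian varieties without isotropic stable subspaces

Let `k` be algebraically closed, of any characteristic, and `W` a Weil cohomology theory with **any**
coefficient field `K` of characteristic zero (for instance `ℚ_ℓ`), on a class of smooth proper
varieties over `k` closed under products. Let `𝒢` be a set of symmetries of `W` (see `Symmetry`), for
instance the Galois group of a finitely generated field `k₀` with algebraic closure `k`, such that all
varieties in the class are given with models over `k₀`; `𝒢` may be empty. Let `P` be a set of abelian
varieties `A` such that no nonzero `K`-subspace of `H^1(A)` which is stable under the algebraic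
correspondences of degree `0` and under `𝒢` is totally isotropic for a polarisation. (Of the abelian
varieties we use only: the cohomology is generated by `H^1(A)`, with `m^* x = pr_1^* x + pr_2^* x`
for `x` in `H^1(A)` and the addition `m`; there is a divisor with hard Lefschetz, the class of which is
multiplied by a constant by each symmetry.) Let `𝒴` be **any** set of varieties; nothing is assumed
about the relation between `P` and `𝒴`.

**Theorem.** The conjecture D holds for all products of members of `𝒴` if and only if the conjectures D
and B hold for all varieties dominated by products of members of `P ∪ 𝒴`.

For `𝒴 = ∅` the first condition is empty, so that D and B hold without any further condition for all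
varieties dominated by products of members of `P`.

Example. Let `k` be an algebraic closure of a finitely generated field `k₀` of characteristic `p > 0`
and `W` the `ℓ`-adic cohomology, for **any** prime `ℓ ≠ p`. Let `P` be the set of all abelian varieties
over `k₀` such that no simple factor over `k` is of type IV in Albert's classification: the centre `F`
of the endomorphism algebra of each simple factor is totally real. By the theorems of Tate, Zarhin and
Mori a subspace of `H^1(A)` stable under the Galois group and the correspondences is the image of a
central idempotent of `End(A) ⊗ ℚ_ℓ`. The Rosati involution is trivial on the centre, so that a
nonzero subspace of this kind is never isotropic. Hence, for all `ℓ ≠ p`, D and B hold for all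
varieties dominated by products of abelian varieties without factors of type IV, and if D holds for
all powers of a variety `Y` then also for all products `A × Y^n`, with such `A`. If there are simple
factors of type IV the same holds for those `ℓ` for which no place above `ℓ` of the maximal totally
real subfields `F⁺` of the centres `F` splits in `F`.

The numerically trivial classes are not assumed to be related to any `ℚ`-structure, so that the
argument works for a single `ℓ`, for all `ℓ`. The result of Clozel is about finite fields, where a
simple abelian variety is of type IV unless it is supersingular, and about the second kind of `ℓ`; the
argument by specialisation to finite fields gives only such `ℓ`.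

The proof. The projectors to the `H^i(A)` and the inverse of `D ^ (g - 1) : H^1(A) → H^(2g - 1)(A)` are
algebraic (Lieberman; this is proved here), and `H(A)` is a direct factor of sums of the tensor powers
of `V = H^1(A)`. Consider all multilinear forms on `V` given by the numerically trivial classes on the
products `A^m × Z` and by linear forms on `H(Z)`. They are closed under permutations of the variables,
products, contraction with the polarisation form and multiplication with this form, and there are no
nonzero constants among them by D for `Z`. So all invariants of the symplectic group of `V` without
constant term vanish on these forms. If there were a nonzero form, then by the theorem of Hilbert and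
Mumford all these forms would be driven to zero by a one-parameter subgroup over an algebraic closure
of `K`, and by the theorem of Kempf there would be an optimal such subgroup, whose flag of isotropic
subspaces is canonical. Therefore this flag would be defined over `K` and stable under `𝒢` and the
algebraic correspondences, against the assumption. All this is proved here from scratch.
-/

universe u v

namespace Pool.Agent.Results.MP_f569db_ag.AbelianAnisotropic

open Pool.Agent.H914 Pool.Agent.R908

/-- **The conjecture D for products of arbitrary varieties with abelian varieties, the first
cohomology of which has no isotropic subspace stable under the algebraic correspondences and the
symmetries of the cohomology theory.** -/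
theorem result {k : Type u} [Field k] {𝒱 : VarClass k} {ops : CycleOps 𝒱}
    (W : WeilCohomology.{u, v} ops) (𝒢 : Set (Symmetry W)) (P 𝒴 : Set 𝒱.Obj)
    (hP : ∀ A ∈ P, ∃ m D, IsAbelianType 𝒢 A m D) (ha : ∀ A ∈ P, AnisotropicOne 𝒢 A) :
    (∀ Y, IsProductOf 𝒴 Y → HomEqNum W Y) ↔
      ∀ Z, IsProductOf (P ∪ 𝒴) Z → ∀ V, Dominates W Z V → HomEqNum W V ∧
        ∀ D, V.IsCyc 1 D → HardLefschetz W V D → LefschetzB W V D :=
  anisotropicOne_iff 𝒢 hP ha

end Pool.Agent.Results.MP_f569db_ag.AbelianAnisotropic
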