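import Pool.Agent.R936.Arb.Iff

/-!
# Products of an arbitrary variety with the members of a family of varieties of CM type

Let `X i`, `i ∈ I`, be a family (finite or infinite) of smooth projective complex varieties of CM type
(for instance abelian varieties of CM type, Fermat hypersurfaces), and suppose that the Hodge group of
the sum of the Hodge structures `H(X i)` is of dimension at most `R`. Suppose that the Hodge conjecture
holds for the products of members of the family with at most `R + 1` different factors (and with a
bounded number of factors, if the dimensions are bounded).

*Theorem.* There is one product `Y` of members of the family with the following property: for every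
smooth projective variety `Z`, of any kind,

* homological and numerical equivalence coincide on all products `Z × X i₁ × ⋯ × X iₙ` if and only
  if they coincide on `Z × Y ^ (dim Z)`,
* the Hodge conjecture holds for all products `Z × X i₁ × ⋯ × X iₙ` if and only if it holds for
  `Z × Y ^ (dim Z)`

(for `dim Z = 0` read `Z × Y`).

*Proof.* Let `L` be a Galois extension of `ℚ` over which the cohomology of the `X i` has bases of
eigenvectors `l`, with vectors `v l = (p - q)_σ` of integers, indexed by the embeddings `σ` of `L`. By
the lemma of Dickson the semigroup of the pairs `(v w, n)`, where `w` is a word in these eigenvectors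
and `|v w|_σ ≤ n` for all `σ`, is generated by finitely many pairs with `n ≥ 1` and pairs with
`v w = 0`. So there are finitely many words such that every vector `v w` with entries bounded by `n`
is the sum of the vectors of at most `n` of them. These words occur on one product `Y`. A Hodge class on
`Z × P` is over `L` a sum of classes `z ⊗ w`, where `w` is a word of `P`; the vector of `z` is minus
the vector of `w`, and its entries are bounded by `dim Z`. So there is a word `w'` on `Y ^ (dim Z)` with
the same vector, and the class `z ⊗ w` is the composition of `z ⊗ w'` with a Hodge class on the product
of `Y ^ (dim Z)` and `P`, which is algebraic. For numerical equivalence the same reduction is applied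
to the numerically trivial algebraic classes.
-/

open CategoryTheory AlgebraicGeometry

universe u w

namespace Pool.Agent.Results.MP_f569db_ag.ArbitraryFactorCM

open Pool.Agent.H914 Pool.Agent.Y121.AHS Pool.Agent.R940 Pool.Agent.R936.Hel2 Pool.Agent.R936.Arb
  VarClass Obj WeilCohomology

/-- **Homological and numerical equivalence on products of an arbitrary variety with varieties of CM
type**: for a family of varieties of CM type with a Hodge group of dimension at most `R`, for which the
Hodge conjecture holds for the products with at most `R + 1` different factors, there is one product
`Y` of members of the family such that, for every variety `Z`, the product `Z × Y ^ (dim Z)` decides for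
all products of `Z` with members of the family. The same holds for the Hodge conjecture. -/
theorem result {k : Type u} [Field k] {𝒱 : VarClass k} {ops : CycleOps 𝒱} (T : HodgeTheory ops)
    (hpos : NonnegTypes T) {I : Type w} [Nonempty I] (X : I → 𝒱.Obj) (hX : ∀ i, IsCM T (X i))
    (R : ℕ) (hR : HodgeGroupDimLe T X R) (m : ℕ∞) (hm : IsFactorBound X R m)
    (h : ∀ i L, Few (R + 1) m (i :: L) → HodgeConj T (prodOf X i L)) :
    ∃ (i0 : I) (L0 : List I), ∀ Z : 𝒱.Obj,
      (HomEqNum T.W (Z.prod (powerOf X i0 L0 Z.dim)) ↔
        ∀ i L, HomEqNum T.W (Z.prod (prodOf X i L))) ∧
      (HodgeConj T (Z.prod (powerOf X i0 L0 Z.dim)) ↔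
        ∀ i L, HodgeConj T (Z.prod (prodOf X i L))) :=
  arb_iff hpos hX hR hm h

end Pool.Agent.Results.MP_f569db_ag.ArbitraryFactorCM
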