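import Pool.Agent.R908.MainB2

/-!
# Homological and numerical equivalence on abelian varieties over finite fields: balanced relations

Let `k` be an algebraic closure of a finite field, `W` a Weil cohomology theory with **any**
coefficient field `K` of characteristic zero, for instance `K = ℚ_ℓ`, and `A` an abelian variety over
`k` (the properties of `A` used in the proof are collected in `IsAbelianOverFinite`; they are known
for all abelian varieties and the `ℓ`-adic cohomology, by theorems of Weil and Tate). Let `𝒴` be **any**
set of varieties.

**Theorem.** Assume that the multiplicative relations between the eigenvalues of Frobenius on `H^1(A)`
and those on the cohomology of the members of `𝒴` are *balanced over `K`*: whenever a product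
`a_1 ⋯ a_r b` of eigenvalues `a_i` on `H^1(A)` and of a product `b` of eigenvalues on members of `𝒴`
is a power of `q` up to a root of unity, the conjugacy classes over `K` of `q / a_1, …, q / a_r` are
those of `a_1, …, a_r`, up to order. If the conjecture D holds for all products of members of `𝒴`,
then D and B hold for all varieties dominated by products of copies of `A` and of members of `𝒴`.
With `𝒴 = ∅`: the conjectures D and B hold for all varieties dominated by powers of `A`.

Two extreme cases of the assumption are known for `𝒴 = ∅`. If some element of the Galois group of `K`
induces the complex conjugation `a ↦ q / a` on all eigenvalues at the same time, all relations are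
balanced for trivial reasons; this is the theorem of Clozel. If all relations follow from
`a (q / a) = q`, all Tate classes are products of divisors. In general the condition depends only on
the irreducible factors `P_i` over `K` of the characteristic polynomial of Frobenius: it says that the
relations between `q` and the constant terms of the `P_i` (up to roots of unity) are those which are
invariant under the exchange of `P_i` with the factor whose roots are the `q / a`. For instance, let `A`
be simple with centre of the endomorphism algebra the field `E = F L`, `F` totally real, `L` imaginary
quadratic, and let `ℓ` be inert in `F` and split in `L`. Then no Galois element induces the complex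
conjugation, there are two factors, exchanged by `a ↦ q / a`, and all relations are balanced unless
the norm of the Frobenius element `π` from `E` to `L` satisfies `N(π) = ζ q ^ (m / 2)`, with `m = [F : ℚ]`
and `ζ` a root of unity, although there may be Tate classes on powers of `A` which are not products of
divisors.

The proof. Over an algebraic closure of `K` the eigenspaces `V_a` of Frobenius are cut out by algebraic
projectors, all their endomorphisms are algebraic, and `V_a` is dual to `V_{q/a}`. Let `f` be a
numerically trivial class on a product, whose component in `V_{a_1} ⊗ ⋯ ⊗ V_{a_r} ⊗ H` is not zero,
with `H` a generalised eigenspace of a product of members of `𝒴`. This gives a relation, which is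
balanced. Then the external product of all Galois conjugates of two copies of this component can be
rearranged, so that the factors `V_a` stand next to dual factors; these pairs are contracted with
algebraic classes, and numerically trivial classes on products of members of `𝒴` are left, which are
zero. So the external product is zero, a contradiction.
-/

universe u v

namespace Pool.Agent.Results.MP_f569db_ag.BalancedRelations

open Pool.Agent.H914 Pool.Agent.W534 Pool.Agent.R908

/-- **The conjecture D for the products of an abelian variety over an algebraic closure of a finite
field with arbitrary varieties, if the relations between the Frobenius eigenvalues are balanced over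
the coefficient field.** -/
theorem result {k : Type u} [Field k] {𝒱 : VarClass k} {ops : CycleOps 𝒱}
    (W : WeilCohomology.{u, v} ops) (p : ℕ) (Φ : FrobSystem W p) (A : 𝒱.Obj)
    (m : A.prod A ⟶ A) (D : A.Cycles) (hA : IsAbelianOverFinite Φ A m D) (𝒴 : Set 𝒱.Obj)
    (hrel : RelationsBalanced Φ A 𝒴) :
    (∀ Y, IsProductOf 𝒴 Y → HomEqNum W Y) ↔
      ∀ Z, IsProductOf ({A} ∪ 𝒴) Z → ∀ V, Dominates W Z V → HomEqNum W V ∧
        ∀ D, V.IsCyc 1 D → HardLefschetz W V D → LefschetzB W V D :=
  balanced_iff hA hrel

end Pool.Agent.Results.MP_f569db_ag.BalancedRelations
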