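import Pool.Agent.R920.CD.Main

/-!
# The conjecture D passes from a total space to the generic fibre

Let `T → B` be a morphism of smooth projective varieties over a field `k₀`, and let `X'` be its
generic fibre, smooth over the function field `K` of `B`. Let `X' → X` be a generically finite
surjective morphism of smooth projective varieties over `K`. If numerically trivial cycles of
dimension `m` on `T` are homologically trivial, then numerically trivial cycles of dimension `m`
on `X` are homologically trivial.

By de Jong's theorem on alterations, every smooth projective variety `X` over a finitely generated
extension of `k₀` has such a model, up to a finite (maybe inseparable) extension of `K`. So the
conjecture D for the cycles of dimension `m` and for `l`-adic cohomology is true over all fields of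
characteristic `p`, if it is true over the algebraic closure of the prime field; in the same way,
in characteristic zero it is enough to prove it over number fields.

The proof. Let `c` be the class of a cycle of dimension `m` on the generic fibre, not zero. It
extends to the total space. Since the geometric monodromy is semisimple (Deligne), `c` has a
non-zero product with a class which is invariant under the monodromy, and which therefore extends
to the total space (Deligne's theorem on global invariant cycles). So the product of `c` with
the class of a fibre is not homologically trivial on the total space; by the conjecture D for the
total space, it has a non-zero intersection number with a cycle, which can be restricted to the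
generic fibre.
-/

set_option autoImplicit false

open Pool.Agent.R920.CD

namespace Pool.Agent.Results.MP_f569db_ag.GenericFibre

universe u v w

/-- The conjecture D for the cycles of dimension `m` on the total space `T` implies the conjecture
D for the cycles of dimension `m` on every smooth projective variety `X` which is dominated by
the generic fibre `X'`. -/
theorem result {E : Type u} [Field E] [CharZero E] {A A' A'' : Type v}
    [CommRing A] [Algebra E A] [CommRing A'] [Algebra E A'] [CommRing A''] [Algebra E A'']
    {T : Coh E A''} {X' : Coh E A'} {X : Coh E A} {Γ : Type w} [Group Γ]
    {μ : Monodromy X' Γ} {r : ℕ} (G : Pool.Agent.R920.CD.GenericFibre T X' μ r)
    (φ : FiniteCover X' X) (m : ℕ) (hD : T.D m) : X.D m :=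
  φ.D m (G.D m hD)

end Pool.Agent.Results.MP_f569db_ag.GenericFibre
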